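import Pool.Agent.H46.VT.Tools
import Pool.Agent.H46.VT.Red

/-!
# MP_36d07e_lc, module PS: presentations by positions in the list
-/

namespace Pool.Agent.H67.VT.PS

open _root_.VT
open Pool.Agent.H46.VT
open Nat.Partrec (Code)
open Nat.Partrec.Code Encodable Denumerable

/-- the common recursion -/
def gen (P : Code → Prop) : List Code → Prop
  | [] => False
  | [c] => P c
  | c :: d :: l => (P c ∧ ¬ P d) ∨ gen P l

theorem gen_iff (P : Code → Prop) : ∀ l : List Code, gen P l ↔ ∃ j < l.length, j % 2 = 0 ∧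
    P (l.getD j Code.zero) ∧ (j + 1 < l.length → ¬ P (l.getD (j + 1) Code.zero))
  | [] => by simp [gen]
  | [c] => by
    simp only [gen]
    constructor
    · intro h
      exact ⟨0, by simp, rfl, by simpa using h, fun h2 => by simp at h2⟩
    · rintro ⟨j, hj, -, h, -⟩
      have : j = 0 := by simpa using hj
      subst this
      simpa using h
  | c :: d :: l => by
    simp only [gen]
    rw [gen_iff P l]
    constructor
    · rintro (⟨h1, h2⟩ | ⟨j, hj, h0, h1, h2⟩)
      · exact ⟨0, by simp, rfl, by simpa using h1, fun _ => by simpa using h2⟩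
      · refine ⟨j + 2, by simpa using hj, by omega, by simpa using h1, fun h3 => ?_⟩
        have h4 : j + 1 < l.length := by
          simp only [List.length_cons] at h3
          omega
        have := h2 h4
        simpa using this
    · rintro ⟨j, hj, h0, h1, h2⟩
      rcases j with _ | _ | j
      · left
        exact ⟨by simpa using h1, by simpa using h2 (by simp)⟩
      · omega
      · right
        refine ⟨j, by simpa using hj, by omega, by simpa using h1, fun h3 => ?_⟩
        have := h2 (by simpa using h3)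
        simpa using this

theorem presSt_gen (s x : ℕ) : ∀ l : List Code, presSt l s x ↔ gen (fun c => Wst c s x) l
  | [] => Iff.rfl
  | [c] => Iff.rfl
  | c :: d :: l => by
    simp only [presSt, gen]
    rw [presSt_gen s x l]

theorem presSet_gen (x : ℕ) : ∀ l : List Code, x ∈ presSet l ↔ gen (fun c => x ∈ W c) l
  | [] => by simp [presSet, gen]
  | [c] => Iff.rfl
  | c :: d :: l => by
    simp only [presSet, gen, Set.mem_union, Set.mem_sdiff]
    rw [presSet_gen x l]

theorem wst_lim (c : Code) (x : ℕ) : ∃ s1, ∀ t, s1 ≤ t → (Wst c t x ↔ x ∈ W c) := by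
  by_cases h : x ∈ W c
  · obtain ⟨s, hs⟩ := h
    exact ⟨s, fun t ht => ⟨fun h => ⟨t, h⟩, fun _ => wst_mono ht hs⟩⟩
  · exact ⟨0, fun t _ => ⟨fun h => ⟨t, h⟩, fun h2 => absurd h2 h⟩⟩

theorem lim (x : ℕ) : ∀ l : List Code, ∃ s1, ∀ t, s1 ≤ t → (presSt l t x ↔ x ∈ presSet l)
  | [] => ⟨0, fun t _ => by simp [presSt, presSet]⟩
  | [c] => by
    obtain ⟨s, hs⟩ := wst_lim c x
    exact ⟨s, fun t ht => by simp only [presSt, presSet]; exact hs t ht⟩
  | c :: d :: l => by
    obtain ⟨s1, h1⟩ := wst_lim c x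
    obtain ⟨s2, h2⟩ := wst_lim d x
    obtain ⟨s3, h3⟩ := lim x l
    refine ⟨max s1 (max s2 s3), fun t ht => ?_⟩
    simp only [presSt, presSet, Set.mem_union, Set.mem_sdiff]
    rw [h1 t (by omega), h2 t (by omega), h3 t (by omega)]

theorem pf_PS : TARGET_PS := by
  refine ⟨fun l s x => (presSt_gen s x l).trans (gen_iff _ l),
    fun l x => (presSet_gen x l).trans (gen_iff _ l), ?_, fun l x => lim x l⟩
  have hl : Computable (fun q : List Code × ℕ × ℕ => q.1.length) :=
    Primrec.list_length.to_comp.comp Computable.fst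
  have h1 : ComputablePred (fun q : (List Code × ℕ × ℕ) × ℕ =>
      q.2 % 2 = 0 ∧ Wst (q.1.1.getD q.2 Code.zero) q.1.2.1 q.1.2.2 ∧
      (q.2 + 1 < q.1.1.length → ¬ Wst (q.1.1.getD (q.2 + 1) Code.zero) q.1.2.1 q.1.2.2)) := by
    have c1 : Computable (fun q : (List Code × ℕ × ℕ) × ℕ => q.1.1) :=
      Computable.fst.comp Computable.fst
    have c2 : Computable (fun q : (List Code × ℕ × ℕ) × ℕ => q.1.2.1) :=
      Computable.fst.comp (Computable.snd.comp Computable.fst)
    have c3 : Computable (fun q : (List Code × ℕ × ℕ) × ℕ => q.1.2.2) :=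
      Computable.snd.comp (Computable.snd.comp Computable.fst)
    have c4 : Computable (fun q : (List Code × ℕ × ℕ) × ℕ => q.2) := Computable.snd
    have c5 : Computable (fun q : (List Code × ℕ × ℕ) × ℕ => q.2 + 1) :=
      Computable.succ.comp c4
    refine cp_and ?_ (cp_and ?_ (cp_imp ?_ (cp_not ?_)))
    · exact cp_eq (Primrec.nat_mod.to_comp.comp c4 (Computable.const 2)) (Computable.const 0)
    · exact cp_wst (co_getD Code.zero c1 c4) c2 c3
    · exact cp_lt c5 (Primrec.list_length.to_comp.comp c1)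
    · exact cp_wst (co_getD Code.zero c1 c5) c2 c3
  refine (cp_exists_lt (p := fun (q : List Code × ℕ × ℕ) (j : ℕ) =>
      j % 2 = 0 ∧ Wst (q.1.getD j Code.zero) q.2.1 q.2.2 ∧
      (j + 1 < q.1.length → ¬ Wst (q.1.getD (j + 1) Code.zero) q.2.1 q.2.2)) h1 hl).of_eq ?_
  intro q
  exact ((presSt_gen q.2.1 q.2.2 q.1).trans (gen_iff _ q.1)).symm

end Pool.Agent.H67.VT.PS
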